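import Pool.Agent.Y790.TG.Fin
import Pool.Agent.Y790.TG.AlphZ

/-!
# For every `k` all but finitely many trees with at most `k` leaves have an `α`-labelling

In particular this holds for the trees of maximum degree three with a perfect matching.  The construction is
described in `MP_5799c5_co/FewLeaves`.
-/

set_option autoImplicit false

namespace Pool.Agent.Results.MP_f04a5a_co.FewLeaves

/-- For every `k` there is `N` such that every finite tree `T` with at most `k` leaves (vertices of degree
one) and at least `N` vertices has an `α`-labelling: an injective map `f` of the vertices to `{0, …, q}`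
(`q = |V| - 1` the number of edges) such that different edges have different values `|f u - f v|`, and an
integer `j` with `0 ≤ j < q` and `min (f u) (f v) ≤ j < max (f u) (f v)` for every edge `u v`. -/
theorem result (k : ℕ) : ∃ N : ℕ, 2 ≤ N ∧ ∀ (V : Type) [Fintype V] (T : SimpleGraph V), T.IsTree →
    {x : V | (T.neighborSet x).ncard = 1}.ncard ≤ k → N ≤ Fintype.card V →
    ∃ f : V → ℤ, Function.Injective f ∧
      (∀ v : V, 0 ≤ f v ∧ f v ≤ (Fintype.card V : ℤ) - 1) ∧
      (∀ u v w x : V, T.Adj u v → T.Adj w x → |f u - f v| = |f w - f x| →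
        (u = w ∧ v = x) ∨ (u = x ∧ v = w)) ∧
      ∃ j : ℤ, 0 ≤ j ∧ j < (Fintype.card V : ℤ) - 1 ∧
        ∀ u v : V, T.Adj u v → min (f u) (f v) ≤ j ∧ j < max (f u) (f v) := by
  obtain ⟨N, hN⟩ := Pool.Agent.Y790.TG.allTreeG k
  exact ⟨max 2 N, le_max_left _ _, fun V _ T hT hk hV => Pool.Agent.Y790.TG.alphZ V T hT
    ((le_max_left _ _).trans hV) (hN V T hT hk ((le_max_right _ _).trans hV))⟩

end Pool.Agent.Results.MP_f04a5a_co.FewLeaves
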